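import Mathlib
import Pool.Agent.Y423.AL.Main

set_option autoImplicit false

/-!
# MP_d237fe_co: labellings of `K_n` all of whose increasing paths have length at most
`516 n log log n / log n`

The question whether every labelling of `K_n` has an increasing path of length at least `c n`
has a negative answer, with a quantitative bound for every `n`.
-/

namespace Pool.Agent.Results.MP_d237fe_co.LogarithmicSaving

/-- A labelling of `K_n`: a bijection from the edge set of `K_n` onto `{1, …, C(n,2)}`
(the values of `label` outside the edge set play no role). -/
structure Labelling (n : ℕ) where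
  label : Sym2 (Fin n) → ℕ
  bij : Set.BijOn label (⊤ : SimpleGraph (Fin n)).edgeSet (Set.Icc 1 (n.choose 2))

/-- The walk `w` of `K_n` is an increasing path: its vertices are distinct and the labels of its
edges, in the order in which they are traversed, are strictly increasing. -/
def IsIncreasingPath {n : ℕ} (L : Labelling n) {u v : Fin n}
    (w : (⊤ : SimpleGraph (Fin n)).Walk u v) : Prop :=
  w.IsPath ∧ (w.edges.map L.label).Pairwise (· < ·)

/-- For every `n ≥ 16` there is a labelling of `K_n` in which every increasing path has length
(number of edges) at most `516 * n * log log n / log n`. -/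
theorem result : ∀ n : ℕ, 16 ≤ n → ∃ L : Labelling n,
    ∀ (u v : Fin n) (w : (⊤ : SimpleGraph (Fin n)).Walk u v),
      IsIncreasingPath L w →
        (w.length : ℝ) ≤ 516 * (n * Real.log (Real.log n) / Real.log n) := by
  intro n hn
  obtain ⟨lab, hbij, hlab⟩ := Pool.Agent.Y423.AL.main n hn
  exact ⟨⟨lab, hbij⟩, fun u v w hw => hlab u v w hw.1 hw.2⟩

end Pool.Agent.Results.MP_d237fe_co.LogarithmicSaving
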